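import Pool.Agent.H.MP_037a8f_lc.A

namespace Pool.Agent.Results.MP_037a8f_lc.No
open Pool.Agent.H.MP_037a8f_lc

/-- Rotate `x` over its current parent as long as this strictly decreases the weighted path length
of the whole tree (at most `k` times); the value is the new tree and the number of rotations. -/
def climb (f : ℕ → ℕ) (x : ℕ) : ℕ → BT → BT × ℕ
  | 0, T => (T, 0)
  | k + 1, T =>
    if wpl f 1 (rotUp x T) < wpl f 1 T then
      ((climb f x k (rotUp x T)).1, (climb f x k (rotUp x T)).2 + 1)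
    else (T, 0)

/-- The restructuring step of the WPL tree; `x` reaches the root after `depth x T` rotations. -/
def wplStep (f : ℕ → ℕ) (x : ℕ) (T : BT) : BT × ℕ := climb f x (depth x T) T

lemma lazy : Lazy wplStep := by
  intro f x T h
  unfold wplStep
  cases depth x T with
  | zero => rfl
  | succ k => simp [climb, h]

theorem result (c : ℝ) : ∃ (n : ℕ) (T₀ : BT), IsBST n T₀ ∧ ∀ a : ℝ, ∃ σ : List ℕ,
    (∀ x ∈ σ, 1 ≤ x ∧ x ≤ n) ∧ ∃ S, IsBST n S ∧
      c * static S σ + a < run wplStep T₀ [] σ := by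
  obtain ⟨h, h2, hh⟩ := exists_h |c| (abs_nonneg c)
  obtain ⟨n, hn⟩ : ∃ n, 2 ^ h = n + 1 := ⟨2 ^ h - 1, by have := Nat.one_le_two_pow (n := h); omega⟩
  have hn1 : 1 ≤ n := by
    have := Nat.pow_le_pow_right (show 0 < 2 by norm_num) h2
    omega
  refine ⟨n, Z true 1 n, keys_Z _ _ _, fun a => ?_⟩
  obtain ⟨K, hK⟩ := exists_nat_gt a
  refine ⟨rep n K, fun x hx => mem_rep hx, bal h 1, by rw [IsBST, keys_bal, hn]; rfl, ?_⟩
  have e1 : (2 : ℝ) * run wplStep (Z true 1 n) [] (rep n K) = K * (n * (n + 1)) := by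
    exact_mod_cast run_rep lazy n K
  have e2 : (static (bal h 1) (rep n K) : ℝ) ≤ K * n * (h + 1) := by
    have := static_bal h 1 (rep n K)
    rw [length_rep] at this
    exact_mod_cast this
  have e3 : (2 : ℝ) ^ h = n + 1 := by exact_mod_cast hn
  have e4 : (1 : ℝ) ≤ n := by exact_mod_cast hn1
  have e5 : (0 : ℝ) ≤ K := Nat.cast_nonneg K
  have e6 : (0 : ℝ) ≤ h := Nat.cast_nonneg h
  have e7 : c * static (bal h 1) (rep n K) ≤ |c| * (K * n * (h + 1) ^ 2) := by
    refine (mul_le_mul_of_nonneg_right (le_abs_self c) (Nat.cast_nonneg _)).trans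
      (mul_le_mul_of_nonneg_left (e2.trans ?_) (abs_nonneg c))
    exact mul_le_mul_of_nonneg_left (by nlinarith) (by positivity)
  rw [e3] at hh
  have e8 := mul_le_mul_of_nonneg_left hh (show (0 : ℝ) ≤ K * n by positivity)
  nlinarith

end Pool.Agent.Results.MP_037a8f_lc.No
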